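import Mathlib

/-!
# Project VE: Vinogradov's system for randomly perturbed integers, without loss of an epsilon
(MP_e21eee_nt).  Definitions and statements of the packages.

The variables are `x_n = n + θ_n`, `1 ≤ n ≤ N`, where the `θ_n ∈ [0,1]` are independent with densities
bounded by `D`.
-/

set_option autoImplicit false

namespace Pool.Agent.U6.VE

open MeasureTheory ProbabilityTheory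
open scoped BigOperators ENNReal NNReal

/-- `e(x) = exp(2 π i x)` -/
noncomputable def ee (x : ℝ) : ℂ := Complex.exp ((2 * Real.pi * x : ℝ) * Complex.I)

/-- the phase `∑ α_j t^j` -/
noncomputable def ph {k : ℕ} (α : Fin k → ℝ) (t : ℝ) : ℝ := ∑ j, α j * t ^ (j.val + 1)

/-- the box `[-S, S]^k` -/
def box (k : ℕ) (S : ℝ) : Set (Fin k → ℝ) := Set.Icc (fun _ => -S) (fun _ => S)

/-- `∏_{i<j} |t_j - t_i|` -/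
noncomputable def vd {k : ℕ} (t : Fin k → ℝ) : ℝ := ∏ i, ∏ j ∈ Finset.Ioi i, |t j - t i|

/-- the largest `vd` of a subfamily of `k` elements -/
noncomputable def vs (k : ℕ) {w : ℕ} (t : Fin w → ℝ) : ℝ := ⨆ B : Fin k ↪ Fin w, vd (fun i => t (B i))

/-- laws of the perturbations -/
structure Law (D : ℝ≥0) (ν : ℕ → Measure ℝ) : Prop where
  prob : ∀ n, IsProbabilityMeasure (ν n)
  dens : ∀ n, ν n ≤ (D : ℝ≥0∞) • (volume.restrict (Set.Icc (0 : ℝ) 1))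

/-- mean of `e(P_α(n + θ_n))` -/
noncomputable def im {k : ℕ} (ν : ℕ → Measure ℝ) (n : ℕ) (α : Fin k → ℝ) : ℂ :=
  ∫ t, ee (ph α (n + t)) ∂(ν n)

/-- mean of the exponential sum -/
noncomputable def IM {k : ℕ} (ν : ℕ → Measure ℝ) (N : ℕ) (α : Fin k → ℝ) : ℂ :=
  ∑ n ∈ Finset.Icc 1 N, im ν n α

/-- the exponential sum over `n + x_n` -/
noncomputable def SM {k : ℕ} (x : ℕ → ℝ) (N : ℕ) (α : Fin k → ℝ) : ℂ :=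
  ∑ n ∈ Finset.Icc 1 N, ee (ph α (n + x n))

/-- the random model: independent `θ_n` with values in `[0,1]` and densities bounded by `D` -/
structure Model {Ω : Type} [MeasurableSpace Ω] (P : Measure Ω) (D : ℝ≥0) (θ : ℕ → Ω → ℝ) : Prop where
  prob : IsProbabilityMeasure P
  meas : ∀ n, Measurable (θ n)
  dens : ∀ n, P.map (θ n) ≤ (D : ℝ≥0∞) • (volume.restrict (Set.Icc (0 : ℝ) 1))
  indep : iIndepFun θ P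

/-- fluctuation of the exponential sum -/
noncomputable def RM {k : ℕ} {Ω : Type} [MeasurableSpace Ω] (P : Measure Ω) (θ : ℕ → Ω → ℝ) (N : ℕ)
    (α : Fin k → ℝ) (ω : Ω) : ℂ :=
  SM (fun n => θ n ω) N α - IM (fun n => P.map (θ n)) N α

/-- its moment over the box -/
noncomputable def ZZ (k s : ℕ) {Ω : Type} [MeasurableSpace Ω] (P : Measure Ω) (θ : ℕ → Ω → ℝ) (N : ℕ)
    (ω : Ω) : ℝ :=
  ∫ α in box k (1 / 2), ‖RM P θ N α ω‖ ^ (2 * s)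

open scoped Classical in
/-- the solutions of `|∑ x_{n_i}^j - ∑ x_{m_i}^j| < 1` (`1 ≤ j ≤ k`), `x_n = n + θ_n`, in indices `≤ N` -/
noncomputable def Sol (s k N : ℕ) (θ : ℕ → ℝ) : Finset ((Fin s → ℕ) × (Fin s → ℕ)) :=
  ((Fintype.piFinset fun _ : Fin s => Finset.Icc 1 N) ×ˢ
    (Fintype.piFinset fun _ : Fin s => Finset.Icc 1 N)).filter fun p =>
      ∀ j : Fin k, |∑ i, ((p.1 i : ℝ) + θ (p.1 i)) ^ (j.val + 1) -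
        ∑ i, ((p.2 i : ℝ) + θ (p.2 i)) ^ (j.val + 1)| < 1

open scoped Classical in
/-- the non-diagonal ones -/
noncomputable def ND (s k N : ℕ) (θ : ℕ → ℝ) : Finset ((Fin s → ℕ) × (Fin s → ℕ)) :=
  (Sol s k N θ).filter fun p => ¬ ∃ σ : Equiv.Perm (Fin s), p.2 = p.1 ∘ σ

/-! ### the packages -/

/-- (FJ1) -/
def S_FJ1 : Prop := ∀ (k : ℕ) (S : ℝ), 0 < S → ∃ C : ℝ, 0 ≤ C ∧ ∀ (Y : Type) [MeasurableSpace Y]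
  (μ : Measure Y) [IsFiniteMeasure μ] (γ : Y → Fin k → ℝ), Measurable γ →
  ∫ α in box k S, ‖∫ y, ee (∑ j, α j * γ y j) ∂μ‖ ^ 2 ≤
    C * (μ.prod μ).real {p : Y × Y | ∀ j, |γ p.1 j - γ p.2 j| < 1}

/-- (FJ2) -/
def S_FJ2 : Prop := ∀ (k : ℕ), ∃ C : ℝ, 0 ≤ C ∧ ∀ (Y : Type) [MeasurableSpace Y]
  (μ : Measure Y) [IsFiniteMeasure μ] (γ : Y → Fin k → ℝ), Measurable γ →
  μ.real {y : Y | ∀ j, |γ y j| < 1} ≤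
    C * ∫ α in box k (1 / 2), ‖∫ y, ee (∑ j, α j * γ y j) ∂μ‖

/-- (PH1) -/
def S_PH1 : Prop := ∀ (k : ℕ) (m : ℝ) (u : Fin k → ℝ), 0 < m →
  volume {t : Fin k → ℝ | m ≤ vd t ∧ ∀ j : Fin k, |∑ i, t i ^ (j.val + 1) - u j| < 1} ≤
    ENNReal.ofReal (2 ^ k / m)

/-- (PH2) -/
def S_PH2 : Prop := ∀ (k : ℕ), 2 ≤ k → ∃ C : ℝ≥0, ∀ N : ℕ, 1 ≤ N →
  ∫⁻ t in (Set.Icc (fun _ => (1 : ℝ)) (fun _ => (N : ℝ) + 1) : Set (Fin (k * (k + 1) / 2) → ℝ)),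
    (ENNReal.ofReal (vs k t))⁻¹ ≤ C * (N : ℝ≥0∞) ^ k

/-- (PH) -/
def S_PH : Prop := ∀ k : ℕ, 2 ≤ k → ∃ C : ℝ, 0 ≤ C ∧ ∀ N : ℕ, 1 ≤ N →
  (volume : Measure ((Fin (k * (k + 1) / 2) → ℝ) × (Fin (k * (k + 1) / 2) → ℝ))).real
    {p | (∀ i, p.1 i ∈ Set.Icc (1 : ℝ) (N + 1)) ∧ (∀ i, p.2 i ∈ Set.Icc (1 : ℝ) (N + 1)) ∧
      ∀ j : Fin k, |∑ i, p.1 i ^ (j.val + 1) - ∑ i, p.2 i ^ (j.val + 1)| < 1} ≤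
    C * (N : ℝ) ^ (k * (k + 1) / 2)

/-- (G) -/
def S_G : Prop := ∀ (k : ℕ) (S : ℝ) (D : ℝ≥0) (s : ℕ), 2 ≤ k → 0 < S → ∃ C : ℝ, 0 ≤ C ∧
  ∀ ν : ℕ → Measure ℝ, Law D ν → ∀ N : ℕ, 1 ≤ N →
    ∫ α in box k S, ‖IM ν N α‖ ^ (2 * s) ≤
      C * ((N : ℝ) ^ s + (N : ℝ) ^ (2 * (s : ℝ) - k * (k + 1) / 2))

/-- (L2) -/
def S_L2 : Prop := ∀ (k : ℕ) (S : ℝ) (D : ℝ≥0), 2 ≤ k → 0 < S → ∃ C : ℝ, 0 ≤ C ∧
  ∀ ν : ℕ → Measure ℝ, Law D ν →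
    (∀ n : ℕ, 1 ≤ n → ∫ α in box k S, ‖im ν n α‖ ^ 2 ≤ C / n) ∧
    (∀ N : ℕ, 1 ≤ N → ∫ α in box k S, ‖IM ν N α‖ ^ 2 ≤ C * (N : ℝ) ^ (1 / 2 : ℝ))

/-- (EFS) Efron–Stein -/
def S_EFS : Prop := ∀ (Ω : Type) [MeasurableSpace Ω] (P : Measure Ω) [IsProbabilityMeasure P]
  (θ : ℕ → Ω → ℝ), (∀ n, Measurable (θ n)) → iIndepFun θ P → ∀ (N : ℕ) (B : ℝ)
  (f : (ℕ → ℝ) → ℝ) (g : ℕ → (ℕ → ℝ) → ℝ), Measurable f → (∀ n, Measurable (g n)) →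
  (∀ x, |f x| ≤ B) → (∀ n x, |g n x| ≤ B) →
  (∀ x y : ℕ → ℝ, (∀ n ∈ Finset.Icc 1 N, x n = y n) → f x = f y) →
  (∀ n, ∀ x y : ℕ → ℝ, (∀ m, m ≠ n → x m = y m) → g n x = g n y) →
  ∫ ω, (f (fun n => θ n ω) - ∫ ω', f (fun n => θ n ω') ∂P) ^ 2 ∂P ≤
    ∑ n ∈ Finset.Icc 1 N, ∫ ω, (f (fun m => θ m ω) - g n (fun m => θ m ω)) ^ 2 ∂P

/-- (MOM) moments of sums of independent bounded random variables -/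
def S_MOM : Prop := ∀ q : ℕ, ∃ C : ℝ, 0 ≤ C ∧ ∀ (Ω : Type) [MeasurableSpace Ω] (P : Measure Ω)
  [IsProbabilityMeasure P] (r : ℕ → Ω → ℂ), (∀ n, Measurable (r n)) → iIndepFun r P →
  (∀ n ω, ‖r n ω‖ ≤ 2) → (∀ n, ∫ ω, r n ω ∂P = 0) → ∀ A : Finset ℕ,
  ∫ ω, ‖∑ n ∈ A, r n ω‖ ^ (2 * q) ∂P ≤ C * (A.card : ℝ) ^ q

/-- (VAR) -/
def S_VAR : Prop := ∀ (k s : ℕ) (D : ℝ≥0), 2 ≤ k → 1 ≤ s → ∃ C : ℝ, 0 ≤ C ∧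
  ∀ (Ω : Type) [MeasurableSpace Ω] (P : Measure Ω) (θ : ℕ → Ω → ℝ), Model P D θ →
  ∀ N : ℕ, 1 ≤ N → ∫ ω, ZZ k s P θ N ω ∂P ≤ C * (N : ℝ) ^ s ∧
    ∫ ω, (ZZ k s P θ N ω - ∫ ω', ZZ k s P θ N ω' ∂P) ^ 2 ∂P ≤ C * (N : ℝ) ^ (2 * (s : ℝ) - 1 / 2)

/-- (ASB) -/
def S_ASB : Prop := ∀ (k s : ℕ) (D : ℝ≥0), 2 ≤ k → 1 ≤ s →
  ∀ (Ω : Type) [MeasurableSpace Ω] (P : Measure Ω) (θ : ℕ → Ω → ℝ), Model P D θ →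
  ∀ᵐ ω ∂P, ∃ C : ℝ, ∀ N : ℕ, 1 ≤ N → ((Sol s k N (fun n => θ n ω)).card : ℝ) ≤
    C * ((N : ℝ) ^ s + (N : ℝ) ^ (2 * (s : ℝ) - k * (k + 1) / 2))

/-- (K1) -/
def S_K1 : Prop := ∀ (s : ℕ) (x : ℕ → ℝ), 1 ≤ s → (∀ n, x n ∈ Set.Icc (0 : ℝ) 1) → ∀ N : ℕ,
  (Sol s 1 N x).card ≤ 3 * N ^ (2 * s - 1)

/-- (WT) -/
def S_WT : Prop := ∀ (k r : ℕ) (D : ℝ≥0) (c : Fin r → ℤ), 2 ≤ k → 2 ≤ r → r < k * (k + 1) →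
  (∀ i, c i ≠ 0) → ∃ C η : ℝ, 0 ≤ C ∧ 0 < η ∧ ∀ ν : ℕ → Measure ℝ, Law D ν → ∀ N : ℕ, 1 ≤ N →
    ∑ n ∈ Fintype.piFinset (fun _ : Fin r => Finset.Icc 1 N),
      (Measure.pi (fun i => ν (n i))).real
        {t : Fin r → ℝ | ∀ j : Fin k, |∑ i, (c i : ℝ) * ((n i : ℝ) + t i) ^ (j.val + 1)| < 1} ≤
    C * (N : ℝ) ^ ((r : ℝ) / 2 - η)

/-- (EX) -/
def S_EX : Prop := ∀ (k s : ℕ) (D : ℝ≥0), 2 ≤ k → 1 ≤ s → 2 * s < k * (k + 1) →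
  ∃ C η : ℝ, 0 ≤ C ∧ 0 < η ∧ ∀ (Ω : Type) [MeasurableSpace Ω] (P : Measure Ω) (θ : ℕ → Ω → ℝ),
  Model P D θ → ∀ N : ℕ, 1 ≤ N →
    ∫⁻ ω, ((ND s k N (fun n => θ n ω)).card : ℝ≥0∞) ∂P ≤ ENNReal.ofReal (C * (N : ℝ) ^ ((s : ℝ) - η))

/-- (PAU) -/
def S_PAU : Prop := ∀ (k s : ℕ) (D : ℝ≥0), 2 ≤ k → 1 ≤ s → 2 * s < k * (k + 1) →
  ∃ η : ℝ, 0 < η ∧ ∀ (Ω : Type) [MeasurableSpace Ω] (P : Measure Ω) (θ : ℕ → Ω → ℝ), Model P D θ →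
  ∀ᵐ ω ∂P, ∃ C : ℝ, ∀ N : ℕ, 1 ≤ N →
    ((ND s k N (fun n => θ n ω)).card : ℝ) ≤ C * (N : ℝ) ^ ((s : ℝ) - η)

/-! ### the tasks -/

/-- task FJ1 -/
def T_FJ1 : Prop := S_FJ1
/-- task FJ2 -/
def T_FJ2 : Prop := S_FJ2
/-- task PH1 -/
def T_PH1 : Prop := S_PH1
/-- task PH2 -/
def T_PH2 : Prop := S_PH2
/-- task PH3 -/
def T_PH3 : Prop := S_PH1 → S_PH2 → S_PH
/-- task G -/
def T_G : Prop := S_FJ1 → S_PH → S_G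
/-- task L2 -/
def T_L2 : Prop := S_FJ1 → S_L2
/-- task EFS -/
def T_EFS : Prop := S_EFS
/-- task MOM -/
def T_MOM : Prop := S_MOM
/-- task VAR -/
def T_VAR : Prop := S_EFS → S_MOM → S_L2 → S_VAR
/-- task ASB -/
def T_ASB : Prop := S_FJ2 → S_G → S_VAR → S_ASB
/-- task K1 -/
def T_K1 : Prop := S_K1
/-- task WT -/
def T_WT : Prop := S_FJ2 → S_G → S_L2 → S_WT
/-- task EX -/
def T_EX : Prop := S_WT → S_EX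
/-- task PAU -/
def T_PAU : Prop := S_EX → S_PAU

end Pool.Agent.U6.VE
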