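import Pool.Agent.U6.VE.Stm

set_option autoImplicit false

namespace Pool.Agent.U6.VE

open MeasureTheory ProbabilityTheory Filter
open scoped BigOperators ENNReal NNReal

/-- the final statement -/
def Final : Prop := ∀ (Ω : Type) [MeasurableSpace Ω] (P : Measure Ω) (D : ℝ≥0) (θ : ℕ → Ω → ℝ),
  Model P D θ →
  (∀ᵐ ω ∂P, ∀ s k : ℕ, 1 ≤ s → 1 ≤ k → ∃ C : ℝ, ∀ N : ℕ, 1 ≤ N →
    ((Sol s k N (fun n => θ n ω)).card : ℝ) ≤
      C * ((N : ℝ) ^ s + (N : ℝ) ^ (2 * (s : ℝ) - k * (k + 1) / 2))) ∧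
  (∀ᵐ ω ∂P, ∀ s k : ℕ, 1 ≤ s → 2 ≤ k → 2 * s < k * (k + 1) → ∃ η C : ℝ, 0 < η ∧ ∀ N : ℕ, 1 ≤ N →
    ((ND s k N (fun n => θ n ω)).card : ℝ) ≤ C * (N : ℝ) ^ ((s : ℝ) - η))

theorem ae_mem {Ω : Type} [MeasurableSpace Ω] {P : Measure Ω} {D : ℝ≥0} {θ : ℕ → Ω → ℝ}
    (h : Model P D θ) : ∀ᵐ ω ∂P, ∀ n, θ n ω ∈ Set.Icc (0 : ℝ) 1 := by
  rw [ae_all_iff]
  intro n
  have h1 : P.map (θ n) (Set.Icc (0 : ℝ) 1)ᶜ = 0 := by
    have h2 := h.dens n (Set.Icc (0 : ℝ) 1)ᶜ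
    rw [Measure.smul_apply, Measure.restrict_apply measurableSet_Icc.compl, Set.compl_inter_self,
      measure_empty, smul_zero] at h2
    exact le_antisymm h2 bot_le
  rw [Measure.map_apply (h.meas n) measurableSet_Icc.compl] at h1
  rw [ae_iff]
  exact h1

theorem assemble (hA : S_ASB) (hK : S_K1) (hP : S_PAU) : Final := by
  intro Ω _ P D θ h
  refine ⟨?_, ?_⟩
  · rw [ae_all_iff]
    intro s
    rw [ae_all_iff]
    intro k
    by_cases hs : 1 ≤ s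
    · rcases Nat.lt_or_ge k 2 with hk | hk
      · filter_upwards [ae_mem h] with ω hω _ hk1
        have hk' : k = 1 := by omega
        subst hk'
        refine ⟨3, fun N hN => ?_⟩
        have h1 := hK s (fun n => θ n ω) hs hω N
        have h2 : ((Sol s 1 N (fun n => θ n ω)).card : ℝ) ≤ 3 * (N : ℝ) ^ (2 * s - 1) := by
          exact_mod_cast h1
        have h3 : (N : ℝ) ^ (2 * (s : ℝ) - ((1 : ℕ) : ℝ) * (((1 : ℕ) : ℝ) + 1) / 2) =
            (N : ℝ) ^ (2 * s - 1) := by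
          rw [← Real.rpow_natCast]
          congr 1
          rw [Nat.cast_sub (by omega)]
          push_cast
          ring
        rw [h3]
        have h4 : (0 : ℝ) ≤ (N : ℝ) ^ s := by positivity
        linarith
      · filter_upwards [hA k s D hk hs Ω P θ h] with ω hω _ _
        exact hω
    · exact Eventually.of_forall fun ω h1 => absurd h1 hs
  · rw [ae_all_iff]
    intro s
    rw [ae_all_iff]
    intro k
    by_cases hc : 1 ≤ s ∧ 2 ≤ k ∧ 2 * s < k * (k + 1)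
    · obtain ⟨η, hη, h1⟩ := hP k s D hc.2.1 hc.1 hc.2.2
      filter_upwards [h1 Ω P θ h] with ω hω _ _ _
      obtain ⟨C, hC⟩ := hω
      exact ⟨η, C, hη, hC⟩
    · exact Eventually.of_forall fun ω h1 h2 h3 => absurd ⟨h1, h2, h3⟩ hc

/-- everything -/
theorem all (fj1 : T_FJ1) (fj2 : T_FJ2) (ph1 : T_PH1) (ph2 : T_PH2) (ph3 : T_PH3) (g : T_G)
    (l2 : T_L2) (efs : T_EFS) (mom : T_MOM) (var : T_VAR) (asb : T_ASB) (k1 : T_K1) (wt : T_WT)
    (ex : T_EX) (pau : T_PAU) : Final := by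
  have hPH : S_PH := ph3 ph1 ph2
  have hG : S_G := g fj1 hPH
  have hL2 : S_L2 := l2 fj1
  have hVAR : S_VAR := var efs mom hL2
  exact assemble (asb fj2 hG hVAR) k1 (pau (ex (wt fj2 hG hL2)))

/-- for `θ = 0` one has the solutions of Vinogradov's system -/
theorem sol_zero (s k N : ℕ) (p : (Fin s → ℕ) × (Fin s → ℕ)) :
    p ∈ Sol s k N (fun _ => 0) ↔ ((∀ i, p.1 i ∈ Finset.Icc 1 N) ∧ ∀ i, p.2 i ∈ Finset.Icc 1 N) ∧
      ∀ j : Fin k, ∑ i, p.1 i ^ (j.val + 1) = ∑ i, p.2 i ^ (j.val + 1) := by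
  classical
  unfold Sol
  rw [Finset.mem_filter, Finset.mem_product, Fintype.mem_piFinset, Fintype.mem_piFinset]
  refine and_congr_right fun _ => forall_congr' fun j => ?_
  have e1 : ∀ v : Fin s → ℕ, ∑ i, ((v i : ℝ) + 0) ^ (j.val + 1) = ((∑ i, v i ^ (j.val + 1) : ℕ) : ℝ) := by
    intro v
    push_cast
    exact Finset.sum_congr rfl fun i _ => by rw [add_zero]
  rw [e1, e1]
  constructor
  · intro h
    have h1 : |((∑ i, p.1 i ^ (j.val + 1) : ℕ) : ℤ) - ((∑ i, p.2 i ^ (j.val + 1) : ℕ) : ℤ)| < 1 := by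
      exact_mod_cast h
    rw [Int.abs_lt_one_iff] at h1
    omega
  · intro h
    rw [h, sub_self, abs_zero]
    exact one_pos

end Pool.Agent.U6.VE
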